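import Mathlib

/-!
# MP_25889e_co : Costas permutations that represent non-attacking queens, G-symmetric arrays

For `n = 2 m` with `m` odd, a permutation of `{0, ..., n - 1}` that represents a configuration of
non-attacking queens violates the relation `f i + f (i + m) = n - 1` in at least two of the `m`
columns `i < m`.  In particular no G-symmetric Costas permutation whose order is congruent to `2`
modulo `4` is a non-attacking queens configuration.
-/

set_option autoImplicit false

namespace Pool.Agent.Results.MP_25889e_co.GSymmetricArrays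

/-- `f` is a Costas permutation: the displacement vectors of pairs of dots are pairwise distinct. -/
def IsCostas {n : ℕ} (f : Equiv.Perm (Fin n)) : Prop :=
  ∀ i j k l : Fin n, i < j → k < l → ((j : ℤ) - i = l - k) → ((f j : ℤ) - f i = f l - f k) →
    i = k ∧ j = l

/-- `f` represents a configuration of non-attacking queens. -/
def IsQueens {n : ℕ} (f : Equiv.Perm (Fin n)) : Prop :=
  ∀ i j : Fin n, i ≠ j → |(f i : ℤ) - f j| ≠ |(i : ℤ) - j|

/-- The columns `i` and `i + m` of `f` are complementary. -/
def IsComplementary {m : ℕ} (f : Equiv.Perm (Fin (2 * m))) (i : Fin (2 * m)) : Prop :=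
  ∃ j : Fin (2 * m), (j : ℕ) = i + m ∧ (f i : ℕ) + f j + 1 = 2 * m

/-- `f` is G-symmetric: the second half of the sequence is the complement of the first half. -/
def IsGSymmetric {m : ℕ} (f : Equiv.Perm (Fin (2 * m))) : Prop :=
  ∀ i : Fin (2 * m), (i : ℕ) < m → IsComplementary f i

lemma attack {m : ℕ} (f : Equiv.Perm (Fin (2 * m))) (hq : IsQueens f) (t : ℕ) (ht : m = 2 * t + 1)
    (p q : Fin (2 * m)) (hp : (f p : ℕ) = t) (hq' : (f q : ℕ) = 3 * t + 1)
    (h : (q : ℕ) = p + m ∨ (p : ℕ) = q + m) : False := by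
  have hne : p ≠ q := by
    rintro rfl
    omega
  apply hq p q hne
  have h1 : (f p : ℤ) = t := by exact_mod_cast hp
  have h2 : (f q : ℤ) = 3 * t + 1 := by exact_mod_cast hq'
  rw [h1, h2]
  have e1 : |(t : ℤ) - (3 * t + 1)| = 2 * t + 1 := by
    rw [abs_sub_comm, abs_of_nonneg (by omega)]
    ring
  rw [e1]
  rcases h with h | h
  · have h3 : ((q : ℕ) : ℤ) = (p : ℕ) + m := by exact_mod_cast h
    have h4 : (m : ℤ) = 2 * t + 1 := by exact_mod_cast ht
    rw [h3, abs_sub_comm, abs_of_nonneg (by omega)]
    linarith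
  · have h3 : ((p : ℕ) : ℤ) = (q : ℕ) + m := by exact_mod_cast h
    have h4 : (m : ℤ) = 2 * t + 1 := by exact_mod_cast ht
    rw [h3, abs_of_nonneg (by omega)]
    linarith

/-- For odd `m`, a permutation of order `2 m` that represents non-attacking queens has at least
two non-complementary pairs of columns. -/
lemma two_defects (m : ℕ) (hm : Odd m) (f : Equiv.Perm (Fin (2 * m))) (hq : IsQueens f) :
    ∃ i i' : Fin (2 * m), i ≠ i' ∧ (i : ℕ) < m ∧ (i' : ℕ) < m ∧
      ¬ IsComplementary f i ∧ ¬ IsComplementary f i' := by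
  obtain ⟨t, ht⟩ := hm
  have ha : t < 2 * m := by omega
  have hb : 3 * t + 1 < 2 * m := by omega
  set p := f.symm ⟨t, ha⟩ with hp
  set q := f.symm ⟨3 * t + 1, hb⟩ with hqd
  have fp : f p = ⟨t, ha⟩ := by simp [hp]
  have fq : f q = ⟨3 * t + 1, hb⟩ := by simp [hqd]
  have fp' : (f p : ℕ) = t := by rw [fp]
  have fq' : (f q : ℕ) = 3 * t + 1 := by rw [fq]
  have hp2 := p.isLt
  have hq2 := q.isLt
  have key : ∀ h : (q : ℕ) = p + m ∨ (p : ℕ) = q + m, False := fun h =>
    attack f hq t ht p q fp' fq' h
  -- the reduction of a column modulo m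
  have red : ∀ x : Fin (2 * m), ∃ x0 : Fin (2 * m), (x0 : ℕ) < m ∧
      ((x : ℕ) = x0 ∨ (x : ℕ) = x0 + m) := by
    intro x
    have hx := x.isLt
    by_cases h : (x : ℕ) < m
    · exact ⟨x, h, Or.inl rfl⟩
    · exact ⟨⟨(x : ℕ) - m, by omega⟩, by simp; omega, Or.inr (by simp; omega)⟩
  obtain ⟨p0, hp0, hpp⟩ := red p
  obtain ⟨q0, hq0, hqq⟩ := red q
  have hpq : (p : ℕ) ≠ q := by
    intro h
    have : p = q := Fin.ext h
    rw [this] at fp'
    omega
  refine ⟨p0, q0, ?_, hp0, hq0, ?_, ?_⟩
  · intro h
    rw [h] at hpp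
    apply key
    omega
  · rintro ⟨j, hj, hs⟩
    rcases hpp with h | h
    · have e : p0 = p := Fin.ext h.symm
      rw [e] at hs hj
      have : (f j : ℕ) = f q := by omega
      have : j = q := f.injective (Fin.ext this)
      rw [this] at hj
      exact key (Or.inl hj)
    · have e : j = p := Fin.ext (by omega)
      rw [e] at hs
      have : (f p0 : ℕ) = f q := by omega
      have : p0 = q := f.injective (Fin.ext this)
      rw [this] at h
      exact key (Or.inr h)
  · rintro ⟨j, hj, hs⟩
    rcases hqq with h | h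
    · have e : q0 = q := Fin.ext h.symm
      rw [e] at hs hj
      have : (f j : ℕ) = f p := by omega
      have : j = p := f.injective (Fin.ext this)
      rw [this] at hj
      exact key (Or.inr hj)
    · have e : j = q := Fin.ext (by omega)
      rw [e] at hs
      have : (f q0 : ℕ) = f p := by omega
      have : q0 = p := f.injective (Fin.ext this)
      rw [this] at h
      exact key (Or.inl h)

lemma queens_symm {n : ℕ} (f : Equiv.Perm (Fin n)) (hq : IsQueens f) : IsQueens f.symm := by
  intro i j hij h
  have hne : f.symm i ≠ f.symm j := fun e => hij (f.symm.injective e)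
  apply hq _ _ hne
  simpa using h.symm

/-- Let `m` be odd and let `f` be a Costas permutation of order `2 m` that represents
non-attacking queens.  Then neither `f` nor its inverse is G-symmetric, and `f` has at least two
non-complementary pairs of columns. -/
theorem result (m : ℕ) (hm : Odd m) (f : Equiv.Perm (Fin (2 * m))) (_hc : IsCostas f)
    (hq : IsQueens f) :
    ¬ IsGSymmetric f ∧ ¬ IsGSymmetric f.symm ∧
    ∃ i i' : Fin (2 * m), i ≠ i' ∧ (i : ℕ) < m ∧ (i' : ℕ) < m ∧
      ¬ IsComplementary f i ∧ ¬ IsComplementary f i' := by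
  obtain ⟨i, i', h1, h2, h3, h4, h5⟩ := two_defects m hm f hq
  obtain ⟨j, -, -, h6, -, h7, -⟩ := two_defects m hm f.symm (queens_symm f hq)
  exact ⟨fun h => h4 (h i h2), fun h => h7 (h j h6), i, i', h1, h2, h3, h4, h5⟩

end Pool.Agent.Results.MP_25889e_co.GSymmetricArrays
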